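import Pool.Agent.TH427.AR.LagCh

/-!
# Lagrange property for left-invariant subloops of finite automorphic loops

`Q` is a finite loop all of whose inner mappings are automorphisms, and `S = S_0 ⊆ ... ⊆ S_n = Q` is
a chain of subloops such that `x (y S_i) = (x y) S_i` for all `x` in `S_i` and all `y` in `S_{i+1}`.
Then the order of `S` divides the order of `Q`.
-/

set_option autoImplicit false

namespace Pool.Agent.Results.MP_62d712_al.LeftInvariant

/-- In a finite loop all of whose middle, left and right inner maps are automorphisms, let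
`S 0 ⊆ S 1 ⊆ ... ⊆ S n` be subloops, where `S n` is the whole loop, such that
`x (y s) ∈ (x y) (S i)` for all `x, s ∈ S i` and all `y ∈ S (i + 1)`.  Then the order of `S 0`
divides the order of the loop. -/
theorem result :
    ∀ (Q : Type) [Fintype Q] (mul : Q → Q → Q) (e : Q),
    (∀ x, mul e x = x) → (∀ x, mul x e = x) →
    (∀ a b : Q, ∃! x, mul a x = b) → (∀ a b : Q, ∃! x, mul x a = b) →
    (∀ x u v a b c : Q, mul x a = mul u x → mul x b = mul v x →
        mul x c = mul (mul u v) x → c = mul a b) →
    (∀ x y u v a b c : Q, mul (mul x y) a = mul x (mul y u) →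
        mul (mul x y) b = mul x (mul y v) →
        mul (mul x y) c = mul x (mul y (mul u v)) → c = mul a b) →
    (∀ x y u v a b c : Q, mul a (mul x y) = mul (mul u x) y →
        mul b (mul x y) = mul (mul v x) y →
        mul c (mul x y) = mul (mul (mul u v) x) y → c = mul a b) →
    ∀ (n : ℕ) (S : ℕ → Finset Q), S n = Finset.univ →
      (∀ i ≤ n, e ∈ S i) →
      (∀ i ≤ n, ∀ a ∈ S i, ∀ b ∈ S i, mul a b ∈ S i) →
      (∀ i < n, S i ⊆ S (i + 1)) →
      (∀ i < n, ∀ x ∈ S i, ∀ y ∈ S (i + 1), ∀ s ∈ S i,
        ∃ s' ∈ S i, mul x (mul y s) = mul (mul x y) s') →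
      (S 0).card ∣ Fintype.card Q := by
  intro Q _ mul e he1 he2 hL hR hT hLi hRi n S hn heS hmulS hsub hinv
  have hbL : ∀ x, Function.Bijective (fun y => mul x y) := fun x =>
    (Function.bijective_iff_existsUnique _).2 (fun b => hL x b)
  have hbR : ∀ x, Function.Bijective (fun y => mul y x) := fun x =>
    (Function.bijective_iff_existsUnique _).2 (fun b => hR x b)
  let A : Pool.Agent.H687R3.AL.AL Q :=
    { op := mul
      e := e
      idl := he1
      idr := he2
      bijL := hbL
      bijR := hbR
      autL := by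
        intro x y z₁ z₂ w₁ w₂ h1 h2
        obtain ⟨c, hc⟩ := (hbL (mul y x)).2 (mul y (mul x (mul z₁ z₂)))
        have hc' : mul (mul y x) c = mul y (mul x (mul z₁ z₂)) := hc
        have h := hLi y x z₁ z₂ w₁ w₂ c h1 h2 hc'
        rw [← h]
        exact hc'
      autR := by
        intro x y z₁ z₂ w₁ w₂ h1 h2
        obtain ⟨c, hc⟩ := (hbR (mul x y)).2 (mul (mul (mul z₁ z₂) x) y)
        have hc' : mul c (mul x y) = mul (mul (mul z₁ z₂) x) y := hc
        have h := hRi x y z₁ z₂ w₁ w₂ c h1 h2 hc'
        rw [← h]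
        exact hc'
      autT := by
        intro x z₁ z₂ w₁ w₂ h1 h2
        have hinjR := (hbR x).1
        -- `T_x` is an automorphism because `T_x⁻¹` is one
        obtain ⟨c, hc⟩ := (hbL x).2 (mul (mul w₁ w₂) x)
        have hc' : mul x c = mul (mul w₁ w₂) x := hc
        have h := hT x w₁ w₂ z₁ z₂ c h1.symm h2.symm hc'
        rw [← h]
        exact hc'.symm }
  have h := Pool.Agent.TH427.AR.lag_chain (A := A) n (fun i => (S i : Set Q)) heS hmulS
    (fun i hi => Finset.coe_subset.2 (hsub i hi)) hinv
  simp only [hn] at h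
  rw [Finset.coe_univ] at h
  rw [Nat.card_eq_card_toFinset] at h
  have e1 : ((S 0 : Set Q)).toFinset = S 0 := by simp
  simp only [e1] at h
  have e2 : Nat.card (Set.univ : Set Q) = Fintype.card Q := by
    rw [Nat.card_congr (Equiv.Set.univ Q), Nat.card_eq_fintype_card]
  rwa [e2] at h

end Pool.Agent.Results.MP_62d712_al.LeftInvariant
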